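import Mathlib.Combinatorics.SimpleGraph.Connectivity.Connected
import Mathlib.Data.Fintype.Pi
import Mathlib.Tactic

set_option autoImplicit false

/-!
# MP_95728c_co: a graph that two lions can sweep, but not monotonically

The complete bipartite graph `K_{3,2}` can be swept by two lions, but it has no monotonic sweep by
two lions.
-/

namespace Pool.Agent.Results.MP_95728c_co.NoMonotoneSweep

variable {V : Type*}

/-- The lions may go from the positions `p` to the positions `q` in one step: each lion stays where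
it is or moves along one edge to an adjacent vertex. -/
def Legal (G : SimpleGraph V) {k : ℕ} (p q : Fin k → V) : Prop :=
  ∀ i, q i = p i ∨ G.Adj (p i) (q i)

/-- The set of cleared vertices after a step in which the lions go from the positions `p` to the
positions `q`, where `C` is the set of cleared vertices before the step: the occupied vertices, and
the vertices `v` of `C` such that for each contaminated neighbour `u` of `v` some lion moves from
`v` to `u`. -/
def nextCleared (G : SimpleGraph V) {k : ℕ} (C : Set V) (p q : Fin k → V) : Set V :=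
  {v | (∃ i, q i = v) ∨ (v ∈ C ∧ ∀ u, G.Adj v u → u ∉ C → ∃ i, p i = v ∧ q i = u)}

/-- The set `C(t)` of cleared vertices at time `t`, where `pos t i` is the position of lion `i` at
time `t`. -/
def cleared (G : SimpleGraph V) {k : ℕ} (pos : ℕ → Fin k → V) : ℕ → Set V
  | 0 => {v | ∃ i, pos 0 i = v}
  | t + 1 => nextCleared G (cleared G pos t) (pos t) (pos (t + 1))

/-- There is a sweep of `G` by `k` lions. -/
def HasSweep (G : SimpleGraph V) (k : ℕ) : Prop :=
  ∃ pos : ℕ → Fin k → V, (∀ t, Legal G (pos t) (pos (t + 1))) ∧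
    ∃ T, cleared G pos T = Set.univ

/-- There is a monotonic sweep of `G` by `k` lions. -/
def HasMonotonicSweep (G : SimpleGraph V) (k : ℕ) : Prop :=
  ∃ pos : ℕ → Fin k → V, (∀ t, Legal G (pos t) (pos (t + 1))) ∧
    ∃ T, cleared G pos T = Set.univ ∧ ∀ t < T, cleared G pos t ⊆ cleared G pos (t + 1)

/-- The complete bipartite graph with the parts `{0, 1, 2}` and `{3, 4}`. -/
def K32 : SimpleGraph (Fin 5) where
  Adj x y := (x.val < 3 ∧ 3 ≤ y.val) ∨ (y.val < 3 ∧ 3 ≤ x.val)
  symm := ⟨fun _ _ h => h.symm⟩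
  loopless := ⟨fun _ h => by omega⟩

instance : DecidableRel K32.Adj := fun x y =>
  inferInstanceAs (Decidable ((x.val < 3 ∧ 3 ≤ y.val) ∨ (y.val < 3 ∧ 3 ≤ x.val)))

/-- The cleared set is described by a Boolean function. -/
def nextB (c : Fin 5 → Bool) (a b a' b' : Fin 5) (v : Fin 5) : Bool :=
  decide (a' = v ∨ b' = v ∨ (c v = true ∧ ∀ u, K32.Adj v u → c u = false →
    (a = v ∧ a' = u) ∨ (b = v ∧ b' = u)))

lemma nextCleared_eq (c : Fin 5 → Bool) (p q : Fin 2 → Fin 5) :
    nextCleared K32 {v | c v = true} p q = {v | nextB c (p 0) (p 1) (q 0) (q 1) v = true} := by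
  ext v
  simp only [nextCleared, nextB, Set.mem_ofPred_eq, decide_eq_true_eq, Fin.exists_fin_two,
    Bool.not_eq_true, or_assoc]

def pairB (a b : Fin 5) (v : Fin 5) : Bool := decide (a = v ∨ b = v)

def tripleB (x : Fin 5) (v : Fin 5) : Bool := decide (v = 3 ∨ v = 4 ∨ v = x)

lemma step_pair : ∀ a b a' b' : Fin 5, (a' = a ∨ K32.Adj a a') → (b' = b ∨ K32.Adj b b') →
    (∀ v, pairB a b v = true → nextB (pairB a b) a b a' b' v = true) →
    (∀ v, nextB (pairB a b) a b a' b' v = pairB a' b' v) ∨
    (((a' = 3 ∧ b' = 4) ∨ (a' = 4 ∧ b' = 3)) ∧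
      ∃ x : Fin 5, x.val < 3 ∧ ∀ v, nextB (pairB a b) a b a' b' v = tripleB x v) := by
  decide +kernel

lemma step_triple : ∀ x : Fin 5, x.val < 3 → ∀ a b a' b' : Fin 5,
    ((a = 3 ∧ b = 4) ∨ (a = 4 ∧ b = 3)) → (a' = a ∨ K32.Adj a a') → (b' = b ∨ K32.Adj b b') →
    (∀ v, tripleB x v = true → nextB (tripleB x) a b a' b' v = true) →
    ((a' = 3 ∧ b' = 4) ∨ (a' = 4 ∧ b' = 3)) ∧
      ∀ v, nextB (tripleB x) a b a' b' v = tripleB x v := by
  decide +kernel

/-- The invariant of monotonic plays: only occupied vertices are cleared, or the lions are on the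
two vertices `3` and `4` and there is at most one further cleared vertex. -/
def Inv (p : Fin 2 → Fin 5) (C : Set (Fin 5)) : Prop :=
  C = {v | pairB (p 0) (p 1) v = true} ∨
    (((p 0 = 3 ∧ p 1 = 4) ∨ (p 0 = 4 ∧ p 1 = 3)) ∧
      ∃ x : Fin 5, x.val < 3 ∧ C = {v | tripleB x v = true})

lemma inv_step (p q : Fin 2 → Fin 5) (C : Set (Fin 5)) (h : Inv p C) (hl : Legal K32 p q)
    (hm : C ⊆ nextCleared K32 C p q) : Inv q (nextCleared K32 C p q) := by
  rcases h with rfl | ⟨hp, x, hx, rfl⟩
  · rw [nextCleared_eq] at hm ⊢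
    rcases step_pair (p 0) (p 1) (q 0) (q 1) (hl 0) (hl 1) (fun v hv => hm hv) with h | ⟨h1, y, hy, h⟩
    · left
      ext v
      simp only [Set.mem_ofPred_eq, h v]
    · right
      refine ⟨h1, y, hy, ?_⟩
      ext v
      simp only [Set.mem_ofPred_eq, h v]
  · rw [nextCleared_eq] at hm ⊢
    obtain ⟨h1, h⟩ := step_triple x hx (p 0) (p 1) (q 0) (q 1) hp (hl 0) (hl 1) (fun v hv => hm hv)
    right
    refine ⟨h1, x, hx, ?_⟩
    ext v
    simp only [Set.mem_ofPred_eq, h v]

lemma not_univ : ∀ a b : Fin 5, ∃ v, pairB a b v = false := by decide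

lemma not_univ' : ∀ x : Fin 5, ∃ v, tripleB x v = false := by decide

lemma inv_ne_univ (p : Fin 2 → Fin 5) (C : Set (Fin 5)) (h : Inv p C) : C ≠ Set.univ := by
  rcases h with rfl | ⟨_, x, _, rfl⟩
  · obtain ⟨v, hv⟩ := not_univ (p 0) (p 1)
    intro h
    have : v ∈ {v | pairB (p 0) (p 1) v = true} := by rw [h]; trivial
    rw [Set.mem_ofPred_eq, hv] at this
    exact absurd this (by simp)
  · obtain ⟨v, hv⟩ := not_univ' x
    intro h
    have : v ∈ {v | tripleB x v = true} := by rw [h]; trivial
    rw [Set.mem_ofPred_eq, hv] at this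
    exact absurd this (by simp)

theorem not_monotonic : ¬ HasMonotonicSweep K32 2 := by
  rintro ⟨pos, hl, T, hT, hm⟩
  have h : ∀ t ≤ T, Inv (pos t) (cleared K32 pos t) := by
    intro t
    induction t with
    | zero =>
      intro _
      left
      ext v
      simp only [cleared, pairB, Set.mem_ofPred_eq, decide_eq_true_eq, Fin.exists_fin_two]
    | succ t ih =>
      intro ht
      exact inv_step _ _ _ (ih (by omega)) (hl t) (hm t (by omega))
  exact inv_ne_univ _ _ (h T le_rfl) hT

/-- The positions of the two lions in a sweep of `K_{3,2}`. -/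
def sweepPos : ℕ → Fin 2 → Fin 5
  | 0 => ![0, 3]
  | 1 => ![4, 1]
  | 2 => ![2, 3]
  | _ => ![4, 0]

theorem has_sweep : HasSweep K32 2 := by
  refine ⟨sweepPos, ?_, 3, ?_⟩
  · intro t
    match t with
    | 0 => unfold Legal; decide
    | 1 => unfold Legal; decide
    | 2 => unfold Legal; decide
    | t + 3 => exact fun i => Or.inl rfl
  · have h0 : cleared K32 sweepPos 0 = {v | pairB 0 3 v = true} := by
      ext v
      simp only [cleared, pairB, Set.mem_ofPred_eq, decide_eq_true_eq, Fin.exists_fin_two]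
      rfl
    have h3 : cleared K32 sweepPos 3 = {v | nextB (nextB (nextB (pairB 0 3) 0 3 4 1) 4 1 2 3)
        2 3 4 0 v = true} := by
      show nextCleared K32 (nextCleared K32 (nextCleared K32 (cleared K32 sweepPos 0) (sweepPos 0)
        (sweepPos 1)) (sweepPos 1) (sweepPos 2)) (sweepPos 2) (sweepPos 3) = _
      rw [h0, nextCleared_eq, nextCleared_eq, nextCleared_eq]
      rfl
    rw [h3, Set.eq_univ_iff_forall]
    decide +kernel

lemma connected_K32 : K32.Connected := by
  have h03 : K32.Adj 0 3 := by decide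
  have h13 : K32.Adj 1 3 := by decide
  have h23 : K32.Adj 2 3 := by decide
  have h04 : K32.Adj 0 4 := by decide
  have h : ∀ v : Fin 5, K32.Reachable 0 v := by
    intro v
    fin_cases v
    · exact SimpleGraph.Reachable.refl _
    · exact h03.reachable.trans h13.symm.reachable
    · exact h03.reachable.trans h23.symm.reachable
    · exact h03.reachable
    · exact h04.reachable
  exact (SimpleGraph.connected_iff_exists_forall_reachable _).mpr ⟨0, h⟩

/-- The complete bipartite graph with parts of sizes `3` and `2` is connected and has a sweep by two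
lions, but it has no monotonic sweep by two lions. -/
theorem result : K32.Connected ∧ HasSweep K32 2 ∧ ¬ HasMonotonicSweep K32 2 :=
  ⟨connected_K32, has_sweep, not_monotonic⟩

end Pool.Agent.Results.MP_95728c_co.NoMonotoneSweep
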